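import Pool.Agent.helper46.T1.SpecP

/-!
# MP_07c750 (quantum unique ergodicity), project T1: row XKM, the mass of the kernel
-/

set_option autoImplicit false

open scoped MatrixGroups ContDiff Topology UpperHalfPlane ComplexConjugate
open UpperHalfPlane MeasureTheory Filter Set

namespace Pool.Agent.TP

open Pool.Agent.RS Pool.Agent.MS

theorem XKM_cont (i j : Fin 2) : Continuous fun k : SL(2, ℝ) => k.1 i j :=
  (continuous_apply j).comp ((continuous_apply i).comp continuous_subtype_val)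

theorem XKM_S : MeasurableSet {k : SL(2, ℝ) | ∀ i j, |k.1 i j| ≤ 3} := by
  have h : IsClosed {k : SL(2, ℝ) | ∀ i j, |k.1 i j| ≤ 3} := by
    simp only [setOf_forall]
    exact isClosed_iInter fun i => isClosed_iInter fun j =>
      isClosed_le (XKM_cont i j).abs continuous_const
  exact h.measurableSet

theorem XKM_t : Measurable fun k : SL(2, ℝ) => |k.1 1 0| := (XKM_cont 1 0).abs.measurable

theorem XKM_main (hDYA : MS.DYA_stmt) (C1 : ℝ) (hC1 : 0 < C1)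
    (hV : ∀ ρ : ℝ, 0 < ρ → mG {k : SL(2, ℝ) | (∀ i j, |k.1 i j| ≤ 3) ∧ |k.1 1 0| ≤ ρ} ≤ ENNReal.ofReal (C1 * ρ))
    (f : SL(2, ℝ) → ENNReal) (D lam : ℝ) (hD : 0 ≤ D) (hlam : 0 < lam) (E : Set SL(2, ℝ)) (hE : MeasurableSet E)
    (h0 : ∀ k, f k ≠ 0 → ∀ i j, |k.1 i j| ≤ 3)
    (hf : ∀ k ∈ E, f k ≤ ENNReal.ofReal (D * (1 / (1 + lam * |k.1 1 0|) ^ 2))) :
    ∫⁻ k in E, f k ∂mG ≤ ENNReal.ofReal (D * (16 * (C1 / lam))) := by
  have hS := XKM_S
  have h1 : ∫⁻ k in {k : SL(2, ℝ) | ∀ i j, |k.1 i j| ≤ 3}, ENNReal.ofReal (1 / (1 + lam * |k.1 1 0|) ^ 2) ∂mG ≤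
      ENNReal.ofReal (16 * (0 + C1 / lam)) :=
    hDYA SL(2, ℝ) mG (fun k => |k.1 1 0|) _ 0 C1 lam XKM_t (fun _ => abs_nonneg _) hS le_rfl hC1.le hlam
      (fun ρ hρ => by
        rw [zero_add]
        exact hV ρ hρ)
  rw [zero_add] at h1
  calc ∫⁻ k in E, f k ∂mG
      ≤ ∫⁻ k in E, ({k : SL(2, ℝ) | ∀ i j, |k.1 i j| ≤ 3}.indicator
          (fun k => ENNReal.ofReal (D * (1 / (1 + lam * |k.1 1 0|) ^ 2)))) k ∂mG := by
        refine setLIntegral_mono' hE fun k hk => ?_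
        by_cases h2 : f k = 0
        · rw [h2]
          exact bot_le
        · rw [indicator_of_mem (show k ∈ {k : SL(2, ℝ) | ∀ i j, |k.1 i j| ≤ 3} from h0 k h2)]
          exact hf k hk
    _ ≤ ∫⁻ k, ({k : SL(2, ℝ) | ∀ i j, |k.1 i j| ≤ 3}.indicator
          (fun k => ENNReal.ofReal (D * (1 / (1 + lam * |k.1 1 0|) ^ 2)))) k ∂mG :=
        setLIntegral_le_lintegral _ _
    _ = ∫⁻ k in {k : SL(2, ℝ) | ∀ i j, |k.1 i j| ≤ 3}, ENNReal.ofReal (D * (1 / (1 + lam * |k.1 1 0|) ^ 2)) ∂mG :=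
        lintegral_indicator hS _
    _ = ∫⁻ k in {k : SL(2, ℝ) | ∀ i j, |k.1 i j| ≤ 3}, ENNReal.ofReal D * ENNReal.ofReal (1 / (1 + lam * |k.1 1 0|) ^ 2) ∂mG := by
        refine lintegral_congr fun k => ?_
        rw [ENNReal.ofReal_mul hD]
    _ = ENNReal.ofReal D * ∫⁻ k in {k : SL(2, ℝ) | ∀ i j, |k.1 i j| ≤ 3}, ENNReal.ofReal (1 / (1 + lam * |k.1 1 0|) ^ 2) ∂mG := by
        refine lintegral_const_mul _ ?_
        exact ENNReal.measurable_ofReal.comp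
          (measurable_const.div ((measurable_const.add (measurable_const.mul XKM_t)).pow_const 2))
    _ ≤ ENNReal.ofReal D * ENNReal.ofReal (16 * (C1 / lam)) := mul_le_mul' le_rfl h1
    _ = ENNReal.ofReal (D * (16 * (C1 / lam))) := (ENNReal.ofReal_mul hD).symm

theorem XKM_proof (hXVL : XVL_stmt) (hOSC : MS.OSC_stmt) (hGKF : MS.GKF_stmt) (hDYA : MS.DYA_stmt) (hSTB : MS.STB_stmt) :
    XKM_stmt := by
  intro β0 α0 β α hβ0 hα0 hβ hα
  obtain ⟨C1, hC1, hV⟩ := hXVL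
  obtain ⟨C0, hC0, hO⟩ := hOSC β0 α0 β α hβ0 hα0 hβ hα
  have hst : st (-(0 : ℝ)) β0 = β0 := by
    rw [neg_zero]
    exact hSTB.1 β0
  have hg : ∀ (r : ℝ) (k : SL(2, ℝ)), 1 ≤ r →
      ‖gk r (pc β0 α0) (pc β α) k‖ ≤ C0 * (1 / (1 + r * |k.1 1 0|) ^ 2) := by
    intro r k hr
    have h1 := hO 0 r k le_rfl hr
    rw [hst, zero_div, neg_zero, Real.exp_zero, mul_one, one_mul] at h1
    rw [mul_one_div]
    exact h1
  have hz : ∀ (r : ℝ) (k : SL(2, ℝ)), 1 ≤ r → ENNReal.ofReal ‖gk r (pc β0 α0) (pc β α) k‖ ≠ 0 →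
      ∀ i j, |k.1 i j| ≤ 3 := by
    intro r k hr h
    have h1 := (hGKF β0 α0 β α 0 r k hβ0 hα0 hβ hα le_rfl hr).1
    rw [hst] at h1
    refine h1 fun h2 => h ?_
    rw [h2, norm_zero, ENNReal.ofReal_zero]
  refine ⟨64 * C0 * C1, by positivity, fun r hr => ⟨?_, fun ρ hρ => ?_⟩⟩
  · have hr0 : 0 < r := by linarith
    rw [← setLIntegral_univ]
    refine (XKM_main hDYA C1 hC1 hV _ C0 r hC0.le hr0 univ MeasurableSet.univ (fun k => hz r k hr)
      (fun k _ => ENNReal.ofReal_le_ofReal (hg r k hr))).trans (ENNReal.ofReal_le_ofReal ?_)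
    rw [show C0 * (16 * (C1 / r)) = (16 * C0 * C1) / r by ring]
    refine div_le_div_of_nonneg_right ?_ hr0.le
    nlinarith [mul_pos hC0 hC1]
  · have hr0 : 0 < r := by linarith
    have hE : MeasurableSet {k : SL(2, ℝ) | ρ < |k.1 1 0|} := measurableSet_lt measurable_const XKM_t
    have hD : 0 ≤ 4 * C0 / (r * ρ) ^ 2 := by positivity
    refine (XKM_main hDYA C1 hC1 hV _ (4 * C0 / (r * ρ) ^ 2) (1 / ρ) hD (by positivity) _ hE (fun k => hz r k hr)
      (fun k hk => ENNReal.ofReal_le_ofReal ?_)).trans (ENNReal.ofReal_le_ofReal ?_)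
    · refine (hg r k hr).trans ?_
      have ht : ρ < |k.1 1 0| := hk
      set t : ℝ := |k.1 1 0| with htd
      have ht0 : 0 < t := hρ.trans ht
      have h1 : 0 < 1 + r * t := by positivity
      have h2 : 0 < 1 + 1 / ρ * t := by positivity
      have h3 : (r * ρ) * (1 + 1 / ρ * t) ≤ 2 * (1 + r * t) := by
        have h4 : (r * ρ) * (1 + 1 / ρ * t) = r * ρ + r * t := by
          field_simp
        rw [h4]
        nlinarith [mul_lt_mul_of_pos_left ht hr0]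
      have h5 : ((r * ρ) * (1 + 1 / ρ * t)) ^ 2 ≤ (2 * (1 + r * t)) ^ 2 :=
        pow_le_pow_left₀ (by positivity) h3 2
      rw [mul_one_div, mul_one_div, div_div, div_le_div_iff₀ (by positivity) (by positivity)]
      nlinarith [mul_le_mul_of_nonneg_left h5 hC0.le]
    · rw [show (4 * C0 / (r * ρ) ^ 2) * (16 * (C1 / (1 / ρ))) = 64 * C0 * C1 / (r ^ 2 * ρ) by
        field_simp
        ring]

end Pool.Agent.TP
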